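import Pool.Agent.H.MP_70614a_al.B

namespace Pool.Agent.H.MP_b87388_al

open CategoryTheory CategoryTheory.Limits Opposite Set Pool.Agent.H.MP_70614a_al

/-- objects of the orbit category: the transitive G-sets G/H, indexed by the subgroups H -/
structure Orb (G : Type) [Group G] where
  sub : Subgroup G

/-- morphisms of the orbit category: the G-equivariant maps G/H to G/K -/
instance (G : Type) [Group G] : Category (Orb G) where
  Hom X Y := (G ⧸ X.sub) →[G] (G ⧸ Y.sub)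
  id _ := MulActionHom.id G
  comp f g := g.comp f

/-- rational coefficient systems: contravariant functors to rational vector spaces -/
abbrev Coef (G : Type) [Group G] : Type 1 := (Orb G)ᵒᵖ ⥤ ModuleCat.{0} ℚ

variable {G : Type} [Group G]

def cj (g : G) (H : Subgroup G) : Subgroup G := H.comap (MulAut.conj g).toMonoidHom

theorem mem_cj {g x : G} {H : Subgroup G} : x ∈ cj g H ↔ g * x * g⁻¹ ∈ H := Iff.rfl

theorem cj_mul (g x : G) (H : Subgroup G) : cj (g * x) H = cj x (cj g H) := by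
  ext y
  simp only [mem_cj, mul_inv_rev, mul_assoc]

theorem cj_one (H : Subgroup G) : cj 1 H = H := by
  ext y
  simp [mem_cj]

theorem cj_mono (g : G) {H K : Subgroup G} (h : H ≤ K) : cj g H ≤ cj g K := fun _ hx => h hx

def ap {X Y : Orb G} (φ : X ⟶ Y) : (G ⧸ X.sub) →[G] (G ⧸ Y.sub) := φ

def pt {X Y : Orb G} (φ : X ⟶ Y) : G ⧸ Y.sub := ap φ ((1 : G) : G ⧸ X.sub)

theorem ap_mk {X Y : Orb G} (φ : X ⟶ Y) (g : G) : ap φ (g : G ⧸ X.sub) = g • pt φ := by
  rw [pt, ← map_smul, MulAction.Quotient.smul_coe, smul_eq_mul, mul_one]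

theorem hom_ext {X Y : Orb G} {φ ψ : X ⟶ Y} (h : pt φ = pt ψ) : φ = ψ := by
  apply MulActionHom.ext
  intro x
  obtain ⟨g, rfl⟩ := QuotientGroup.mk_surjective x
  exact (ap_mk φ g).trans (h ▸ (ap_mk ψ g).symm)

theorem pt_comp {X Y Z : Orb G} (ψ : X ⟶ Y) (φ : Y ⟶ Z) {a b : G} (hb : pt ψ = b) (ha : pt φ = a) :
    pt (ψ ≫ φ) = ((b * a : G) : G ⧸ Z.sub) := by
  change ap φ (pt ψ) = _
  rw [hb, ap_mk, ha, MulAction.Quotient.smul_coe, smul_eq_mul]

theorem cj_le {X Y : Orb G} (φ : X ⟶ Y) {a : G} (ha : pt φ = a) (g : G) :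
    cj g X.sub ≤ cj (a⁻¹ * g) Y.sub := by
  intro y hy
  rw [mem_cj] at hy ⊢
  have h1 : ((1 : G) : G ⧸ X.sub) = ((g * y * g⁻¹ : G) : G ⧸ X.sub) := by
    rw [QuotientGroup.eq]; simpa using hy
  have h2 : pt φ = (g * y * g⁻¹) • pt φ := by rw [← ap_mk, ← h1]; rfl
  rw [ha, MulAction.Quotient.smul_coe, smul_eq_mul, QuotientGroup.eq] at h2
  simpa [mul_assoc] using h2

def hom {X Y : Orb G} (g : G) (h : cj g X.sub ≤ Y.sub) : X ⟶ Y where
  toFun := Quotient.map' (fun x => x * g) fun x y hxy => by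
    rw [QuotientGroup.leftRel_apply] at hxy ⊢
    apply h
    rw [mem_cj]
    simpa [mul_assoc] using hxy
  map_smul' a x := by
    obtain ⟨x, rfl⟩ := QuotientGroup.mk_surjective x
    change (((a * x) * g : G) : G ⧸ Y.sub) = ((a * (x * g) : G) : G ⧸ Y.sub)
    rw [mul_assoc]

theorem pt_hom {X Y : Orb G} (g : G) (h : cj g X.sub ≤ Y.sub) : pt (hom g h) = (g : G ⧸ Y.sub) := by
  change ((1 * g : G) : G ⧸ Y.sub) = _
  rw [one_mul]

structure Dat (G : Type) [Group G] (P : Type) [PartialOrder P] where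
  E : Subgroup G
  nor : E.Normal
  com : ∀ a ∈ E, ∀ b ∈ E, a * b = b * a
  e : P → Subgroup G
  he : ∀ p, e p ≤ E
  s : Subgroup G → P
  adj : ∀ H p, H ≤ E → (s H ≤ p ↔ H ≤ e p)

variable {P : Type} [PartialOrder P] (D : Dat G P)

namespace Dat

def In (U : Set P) (H : Subgroup G) : Prop := H ≤ D.E ∧ D.s H ∈ U

theorem s_mono {H K : Subgroup G} (h : H ≤ K) (hK : K ≤ D.E) : D.s H ≤ D.s K :=
  (D.adj H _ (h.trans hK)).2 (h.trans ((D.adj K _ hK).1 le_rfl))

theorem le_of_cj {g : G} {K : Subgroup G} (h : cj g K ≤ D.E) : K ≤ D.E := by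
  intro y hy
  have h1 : g⁻¹ * y * g ∈ cj g K := by rw [mem_cj]; simpa [mul_assoc] using hy
  simpa [mul_assoc] using D.nor.conj_mem _ (h h1) g

theorem cj_E {x : G} (hx : x ∈ D.E) {K : Subgroup G} (h : K ≤ D.E) : cj x K = K := by
  have key : ∀ y ∈ D.E, x * y * x⁻¹ = y := fun y hy => by
    rw [D.com x hx y hy, mul_inv_cancel_right]
  ext y
  rw [mem_cj]
  constructor
  · intro hy
    have h1 : y ∈ D.E := by simpa [mul_assoc] using D.nor.conj_mem _ (h hy) x⁻¹
    rwa [key y h1] at hy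
  · intro hy
    rwa [key y (h hy)]

theorem In_mul (U : Set P) (H : Subgroup G) (g : G) {x : G} (hx : x ∈ D.E) :
    D.In U (cj (g * x) H) ↔ D.In U (cj g H) := by
  rw [cj_mul]
  constructor
  · intro h
    rwa [D.cj_E hx (D.le_of_cj h.1)] at h
  · intro h
    rwa [D.cj_E hx h.1]

theorem In_Iic (p : P) (H : Subgroup G) : D.In (Iic p) H ↔ H ≤ D.e p :=
  ⟨fun h => (D.adj H p h.1).1 h.2, fun h => ⟨h.trans (D.he p), (D.adj H p (h.trans (D.he p))).2 h⟩⟩

def X (U : Set P) (H : Subgroup G) : Submodule ℚ (G → ℚ) where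
  carrier := {f | (∀ g, ∀ x ∈ D.E, f (g * x) = f g) ∧ ∀ g, ¬ D.In U (cj g H) → f g = 0}
  add_mem' ha hb := ⟨fun g x hx => by rw [Pi.add_apply, Pi.add_apply, ha.1 g x hx, hb.1 g x hx],
    fun g hg => by rw [Pi.add_apply, ha.2 g hg, hb.2 g hg, add_zero]⟩
  zero_mem' := ⟨fun _ _ _ => rfl, fun _ _ => rfl⟩
  smul_mem' c f hf := ⟨fun g x hx => by rw [Pi.smul_apply, Pi.smul_apply, hf.1 g x hx],
    fun g hg => by rw [Pi.smul_apply, hf.2 g hg, smul_zero]⟩

variable {D}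

theorem X_ext {U : Set P} {H : Subgroup G} {f f' : D.X U H}
    (h : ∀ g, D.In U (cj g H) → f.1 g = f'.1 g) : f = f' := by
  apply Subtype.ext
  funext g
  by_cases hg : D.In U (cj g H)
  · exact h g hg
  · rw [f.2.2 g hg, f'.2.2 g hg]

theorem X_out {U : Set P} {K : Subgroup G} (f : D.X U K) (a g : G) :
    f.1 ((a : G ⧸ K).out⁻¹ * g) = f.1 (a⁻¹ * g) := by
  by_cases hK : K ≤ D.E
  · obtain ⟨k, hk⟩ := QuotientGroup.mk_out_eq_mul K a
    have h1 : (a * k)⁻¹ * g = a⁻¹ * g * ((a⁻¹ * g)⁻¹ * (k : G)⁻¹ * (a⁻¹ * g)⁻¹⁻¹) := by group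
    rw [hk, h1]
    exact f.2.1 _ _ (D.nor.conj_mem _ (D.E.inv_mem (hK k.2)) _)
  · rw [f.2.2 _ fun h => hK (D.le_of_cj h.1), f.2.2 _ fun h => hK (D.le_of_cj h.1)]

variable (D)

open Classical in
noncomputable def mp (U : Set P) {A B : Orb G} (φ : A ⟶ B) : D.X U B.sub →ₗ[ℚ] D.X U A.sub where
  toFun f := ⟨fun g => if D.In U (cj g A.sub) then f.1 ((pt φ).out⁻¹ * g) else 0,
    fun g x hx => by
      simp only [D.In_mul U _ g hx, ← mul_assoc, f.2.1 _ x hx], fun _ hg => if_neg hg⟩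
  map_add' f f' := X_ext fun g hg => by
    simp [hg]
  map_smul' c f := X_ext fun g hg => by
    simp [hg]

variable {D}

theorem mp_val {U : Set P} {A B : Orb G} (φ : A ⟶ B) {a : G} (ha : pt φ = a) (f : D.X U B.sub)
    {g : G} (hg : D.In U (cj g A.sub)) : (D.mp U φ f).1 g = f.1 (a⁻¹ * g) := by
  rw [← X_out f a g, ← ha]
  exact if_pos hg

variable (D)

noncomputable def XF (U : Set P) (hU : U.OrdConnected) : Coef G where
  obj A := ModuleCat.of ℚ (D.X U A.unop.sub)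
  map φ := ModuleCat.ofHom (D.mp U φ.unop)
  map_id A := by
    ext1
    ext1 f
    refine X_ext fun g hg => ?_
    refine (mp_val (𝟙 A.unop) (a := 1) rfl f hg).trans ?_
    rw [inv_one, one_mul]
    rfl
  map_comp {A B C} φ ψ := by
    ext1
    ext1 f
    refine X_ext fun g hg => ?_
    obtain ⟨a, ha⟩ := QuotientGroup.mk_surjective (pt φ.unop)
    obtain ⟨b, hb⟩ := QuotientGroup.mk_surjective (pt ψ.unop)
    refine (mp_val _ (pt_comp ψ.unop φ.unop hb.symm ha.symm) f hg).trans ?_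
    refine Eq.trans ?_ (mp_val ψ.unop hb.symm (D.mp U φ.unop f) hg).symm
    rw [mul_inv_rev, mul_assoc]
    by_cases h1 : D.In U (cj (b⁻¹ * g) B.unop.sub)
    · rw [mp_val _ ha.symm _ h1]
    · rw [(D.mp U φ.unop f).2.2 _ h1]
      refine f.2.2 _ fun h2 => h1 ?_
      have h3 := cj_le φ.unop ha.symm (b⁻¹ * g)
      exact ⟨h3.trans h2.1, hU.out hg.2 h2.2
        ⟨D.s_mono (cj_le ψ.unop hb.symm g) (h3.trans h2.1), D.s_mono h3 h2.1⟩⟩

open Classical in
noncomputable def rm (U U' : Set P) (H : Subgroup G) : D.X U H →ₗ[ℚ] D.X U' H where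
  toFun f := ⟨fun g => if D.In U' (cj g H) then f.1 g else 0,
    fun g x hx => by simp only [D.In_mul U' _ g hx, f.2.1 _ x hx], fun _ hg => if_neg hg⟩
  map_add' f f' := X_ext fun g hg => by
    simp [hg]
  map_smul' c f := X_ext fun g hg => by
    simp [hg]

theorem rm_val (U U' : Set P) (H : Subgroup G) (f : D.X U H) {g : G} (hg : D.In U' (cj g H)) :
    (D.rm U U' H f).1 g = f.1 g := if_pos hg

noncomputable def rn {U U' : Set P} (h : U.OrdConnected) (h' : U'.OrdConnected)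
    (c : ∀ x ∈ U', ∀ y ∈ U, x ≤ y → (x ∈ U ↔ y ∈ U')) : D.XF U h ⟶ D.XF U' h' where
  app A := ModuleCat.ofHom (D.rm U U' A.unop.sub)
  naturality {A B} φ := by
    ext1
    ext1 f
    refine X_ext fun g hg => ?_
    obtain ⟨a, ha⟩ := QuotientGroup.mk_surjective (pt φ.unop)
    change (D.rm U U' _ (D.mp U φ.unop f)).1 g = (D.mp U' φ.unop (D.rm U U' _ f)).1 g
    rw [rm_val _ _ _ _ _ hg, mp_val _ ha.symm _ hg]
    by_cases h1 : D.In U (cj (a⁻¹ * g) A.unop.sub)
    · have h2 := c _ hg.2 _ h1.2 (D.s_mono (cj_le φ.unop ha.symm g) h1.1)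
      by_cases h3 : D.In U (cj g B.unop.sub)
      · rw [mp_val _ ha.symm _ h3, rm_val _ _ _ _ _ ⟨h1.1, h2.1 h3.2⟩]
      · rw [(D.mp U φ.unop f).2.2 _ h3, (D.rm U U' _ f).2.2 _ fun h4 => h3 ⟨hg.1, h2.2 h4.2⟩]
    · have h5 : (f : D.X U A.unop.sub).1 (a⁻¹ * g) = 0 := f.2.2 _ h1
      have h6 : (D.mp U φ.unop f).1 g = 0 := by
        by_cases h3 : D.In U (cj g B.unop.sub)
        · rw [mp_val _ ha.symm _ h3, h5]
        · exact (D.mp U φ.unop f).2.2 _ h3
      have h7 : (D.rm U U' _ f).1 (a⁻¹ * g) = 0 := by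
        by_cases h3 : D.In U' (cj (a⁻¹ * g) A.unop.sub)
        · rw [rm_val _ _ _ _ _ h3, h5]
        · exact (D.rm U U' _ f).2.2 _ h3
      rw [h6, h7]

open Classical in
noncomputable def T {M : Coef G} {B : Orb G} (m : M.obj (op B)) (A : Orb G) (g : G) :
    M.obj (op A) :=
  if h : cj g A.sub ≤ B.sub then (M.map (hom g h).op).hom m else 0

theorem T_nat {M N : Coef G} (α : M ⟶ N) {B : Orb G} (m : M.obj (op B)) (A : Orb G) (g : G) :
    (α.app (op A)).hom (T m A g) = T ((α.app (op B)).hom m) A g := by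
  unfold T
  split_ifs with h
  · exact congrArg (fun φ => ModuleCat.Hom.hom φ m) (α.naturality (hom g h).op)
  · exact map_zero _

theorem T_map {M : Coef G} {B : Orb G} (m : M.obj (op B)) {A A' : Orb G} (ψ : A' ⟶ A) {b : G}
    (hb : pt ψ = b) {g : G} (h : cj g A.sub ≤ B.sub) :
    (M.map ψ.op).hom (T m A g) = T m A' (b * g) := by
  have h' : cj (b * g) A'.sub ≤ B.sub := by
    have := cj_le ψ hb (b * g)
    rw [inv_mul_cancel_left] at this
    exact this.trans h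
  have h2 : hom (b * g) h' = ψ ≫ hom g h :=
    hom_ext ((pt_hom _ _).trans (pt_comp ψ (hom g h) hb (pt_hom _ _)).symm)
  rw [T, T, dif_pos h, dif_pos h', h2, op_comp, M.map_comp]
  rfl

variable [Fintype G]

open Classical in
noncomputable def nn : ℚ := ∑ g : G, if g ∈ D.E then 1 else 0

theorem nn_ne : D.nn ≠ 0 := by
  classical
  apply ne_of_gt
  refine Finset.sum_pos' (fun g _ => by split_ifs <;> norm_num) ⟨1, Finset.mem_univ _, ?_⟩
  rw [if_pos D.E.one_mem]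
  norm_num

noncomputable def lf (p : P) {M : Coef G} (m : M.obj (op ⟨D.e p⟩)) (A : Orb G) :
    D.X (Iic p) A.sub →ₗ[ℚ] M.obj (op A) where
  toFun f := D.nn⁻¹ • ∑ g, f.1 g • T m A g
  map_add' f f' := by simp [add_smul, Finset.sum_add_distrib]
  map_smul' c f := by
    rw [RingHom.id_apply, smul_comm c, Finset.smul_sum (r := c)]
    simp [mul_smul]

noncomputable def lift (p : P) {M : Coef G} (m : M.obj (op ⟨D.e p⟩)) :
    D.XF (Iic p) ordConnected_Iic ⟶ M where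
  app A := ModuleCat.ofHom (D.lf p m A.unop)
  naturality {A A'} ψ := by
    ext1
    ext1 f
    obtain ⟨b, hb⟩ := QuotientGroup.mk_surjective (pt ψ.unop)
    change D.nn⁻¹ • ∑ g, (D.mp (Iic p) ψ.unop f).1 g • T m A'.unop g
      = (M.map ψ.unop.op).hom (D.nn⁻¹ • ∑ g, (f : D.X (Iic p) A.unop.sub).1 g • T m A.unop g)
    rw [map_smul, map_sum, ← Equiv.sum_comp (Equiv.mulLeft b)]
    congr 1
    refine Finset.sum_congr rfl fun g _ => ?_
    rw [map_smul, Equiv.coe_mulLeft]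
    by_cases h1 : D.In (Iic p) (cj (b * g) A'.unop.sub)
    · rw [mp_val _ hb.symm _ h1, inv_mul_cancel_left]
      by_cases h2 : D.In (Iic p) (cj g A.unop.sub)
      · rw [T_map m _ hb.symm ((D.In_Iic _ _).1 h2)]
      · rw [(f : D.X (Iic p) A.unop.sub).2.2 g h2, zero_smul, zero_smul]
    · have h2 : ¬ D.In (Iic p) (cj g A.unop.sub) := by
        intro h2
        apply h1
        have := cj_le ψ.unop hb.symm (b * g)
        rw [inv_mul_cancel_left] at this
        exact (D.In_Iic _ _).2 (this.trans ((D.In_Iic _ _).1 h2))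
      rw [(D.mp (Iic p) ψ.unop f).2.2 _ h1, (f : D.X (Iic p) A.unop.sub).2.2 g h2, zero_smul,
        zero_smul]

open Classical in
noncomputable def f0 (p : P) : D.X (Iic p) (D.e p) :=
  ⟨fun g => if g ∈ D.E then 1 else 0, fun g x hx => by simp only [D.E.mul_mem_cancel_right hx],
    fun g hg => if_neg fun h => hg ((D.In_Iic _ _).2 (D.cj_E h (D.he p)).le)⟩

theorem gen (p : P) (A : Orb G) (f : D.X (Iic p) A.sub) :
    D.lf p (M := D.XF (Iic p) ordConnected_Iic) (D.f0 p) A f = f := by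
  classical
  refine X_ext fun g' hg' => ?_
  have h1 : ∀ g, f.1 g * (T (M := D.XF (Iic p) ordConnected_Iic) (B := ⟨D.e p⟩) (D.f0 p) A g).1 g'
      = (if g⁻¹ * g' ∈ D.E then 1 else 0) * f.1 g' := by
    intro g
    by_cases h2 : D.In (Iic p) (cj g A.sub)
    · rw [T, dif_pos ((D.In_Iic _ _).1 h2)]
      erw [mp_val (B := ⟨D.e p⟩) _ (pt_hom g ((D.In_Iic _ _).1 h2)) (D.f0 p) hg']
      change f.1 g * (if g⁻¹ * g' ∈ D.E then 1 else 0) = _
      split_ifs with h3
      · rw [← f.2.1 g _ h3, mul_inv_cancel_left, mul_comm]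
      · simp
    · rw [f.2.2 g h2, zero_mul, if_neg, zero_mul]
      intro h3
      apply h2
      rwa [← D.In_mul _ _ g h3, mul_inv_cancel_left]
  have h4 : (D.lf p (M := D.XF (Iic p) ordConnected_Iic) (D.f0 p) A f).1 g' = D.nn⁻¹ * ∑ g,
      f.1 g * (T (M := D.XF (Iic p) ordConnected_Iic) (B := ⟨D.e p⟩) (D.f0 p) A g).1 g' := by
    have h6 : ∀ t : G → D.X (Iic p) A.sub,
        (D.nn⁻¹ • ∑ g, f.1 g • t g).1 g' = D.nn⁻¹ * ∑ g, f.1 g * (t g).1 g' := by
      intro t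
      simp
    exact h6 fun g => T (M := D.XF (Iic p) ordConnected_Iic) (B := ⟨D.e p⟩) (D.f0 p) A g
  rw [h4]
  simp only [h1]
  rw [← Finset.sum_mul, ← mul_assoc]
  have h5 : (∑ g : G, if g⁻¹ * g' ∈ D.E then (1 : ℚ) else 0) = D.nn :=
    Equiv.sum_comp ((Equiv.inv G).trans (Equiv.mulRight g')) fun g => if g ∈ D.E then (1 : ℚ) else 0
  rw [h5, inv_mul_cancel₀ D.nn_ne, one_mul]

theorem lf_nat (p : P) {M N : Coef G} (α : M ⟶ N) (m : M.obj (op ⟨D.e p⟩)) (A : Orb G)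
    (f : D.X (Iic p) A.sub) :
    (α.app (op A)).hom (D.lf p m A f) = D.lf p ((α.app (op ⟨D.e p⟩)).hom m) A f := by
  change (α.app (op A)).hom (D.nn⁻¹ • ∑ g, f.1 g • T m A g) = D.nn⁻¹ • ∑ g, f.1 g • T _ A g
  rw [map_smul, map_sum]
  simp only [map_smul, T_nat]

theorem eq_lift (p : P) {N : Coef G} (h : D.XF (Iic p) ordConnected_Iic ⟶ N) :
    h = D.lift p ((h.app (op ⟨D.e p⟩)).hom (D.f0 p)) := by
  ext A f
  exact (congrArg (h.app A).hom (D.gen p A.unop f)).symm.trans (D.lf_nat p h _ A.unop f)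

theorem proj (p : P) : Projective (D.XF (Iic p) ordConnected_Iic) where
  factors {M N} h π hπ := by
    have h1 : Epi (π.app (op ⟨D.e p⟩)) := inferInstance
    rw [ModuleCat.epi_iff_surjective] at h1
    obtain ⟨m, hm⟩ := h1 ((h.app (op ⟨D.e p⟩)).hom (D.f0 p))
    refine ⟨D.lift p m, ?_⟩
    rw [D.eq_lift p h, ← hm]
    ext A f
    exact D.lf_nat p π m A.unop f

theorem hom0 (p : P) {N : Coef G} (hN : Subsingleton (N.obj (op ⟨D.e p⟩)))
    (h : D.XF (Iic p) ordConnected_Iic ⟶ N) : h = 0 := by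
  rw [D.eq_lift p h, D.eq_lift p (N := N) 0]
  congr 1
  exact Subsingleton.elim _ _

omit [Fintype G] in
theorem jri : JointlyReflectIsomorphisms
    (fun A : (Orb G)ᵒᵖ => (evaluation (Orb G)ᵒᵖ (ModuleCat.{0} ℚ)).obj A) where
  isIso f h := by
    have : ∀ A, IsIso (f.app A) := h
    exact NatIso.isIso_of_isIso_app f

noncomputable def thin : Thin (Coef G) P where
  T := D.XF
  ses {U U'} hU h := by
    refine ⟨D.rn (h.c1 hU) hU (c_low h), D.rn hU (h.c2 hU) (c_quo h), ?_, ?_⟩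
    · ext A f
      refine X_ext fun g hg => ?_
      change (D.rm U (U \ U') _ (D.rm U' U _ f)).1 g = 0
      rw [rm_val _ _ _ _ _ hg, rm_val _ _ _ _ _ ⟨hg.1, hg.2.1⟩]
      exact f.2.2 g fun h' => hg.2.2 h'.2
    · rw [jri.shortExact_iff]
      intro A
      refine ModuleCat.shortComplex_shortExact _ ?_ ?_ ?_
      · change Function.Exact (D.rm U' U A.unop.sub) (D.rm U (U \ U') A.unop.sub)
        intro f
        constructor
        · intro hf
          have h1 : ∀ g, ¬ D.In U' (cj g A.unop.sub) → f.1 g = 0 := by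
            intro g hg
            by_cases h2 : D.In U (cj g A.unop.sub)
            · rw [← D.rm_val U (U \ U') _ f ⟨h2.1, h2.2, fun h3 => hg ⟨h2.1, h3⟩⟩, hf]
              rfl
            · exact f.2.2 g h2
          exact ⟨⟨f.1, f.2.1, h1⟩, X_ext fun g hg => D.rm_val _ _ _ _ hg⟩
        · rintro ⟨w, rfl⟩
          refine X_ext fun g hg => ?_
          rw [rm_val _ _ _ _ _ hg, rm_val _ _ _ _ _ ⟨hg.1, hg.2.1⟩]
          exact w.2.2 g fun h' => hg.2.2 h'.2
      · change Function.Injective (D.rm U' U A.unop.sub)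
        intro v w hvw
        refine X_ext fun g hg => ?_
        rw [← D.rm_val U' U _ v ⟨hg.1, h.1 hg.2⟩, hvw, D.rm_val U' U _ w ⟨hg.1, h.1 hg.2⟩]
      · change Function.Surjective (D.rm U (U \ U') A.unop.sub)
        intro w
        exact ⟨⟨w.1, w.2.1, fun g hg => w.2.2 g fun h' => hg ⟨h'.1, h'.2.1⟩⟩,
          X_ext fun g hg => D.rm_val _ _ _ _ hg⟩
  ret {U U'} hU h h' := by
    refine ⟨D.rn (h.c1 hU) hU (c_low h), D.rn hU (h.c1 hU) (c_ret h h'), ?_⟩
    ext A f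
    refine X_ext fun g hg => ?_
    change (D.rm U U' _ (D.rm U' U _ f)).1 g = (f : D.X U' A.unop.sub).1 g
    rw [rm_val _ _ _ _ _ hg, rm_val _ _ _ _ _ ⟨hg.1, h.1 hg.2⟩]
  proj := D.proj
  zero := by
    rw [IsZero.iff_id_eq_zero]
    ext A f
    exact X_ext fun g hg => hg.2.elim

end Dat

end Pool.Agent.H.MP_b87388_al
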