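import Pool.Agent.H.MP_b87388_al.A

namespace Pool.Agent.H.MP_b87388_al

open CategoryTheory CategoryTheory.Limits Set Pool.Agent.H.MP_70614a_al

section pd

universe v u

variable {C : Type u} [Category.{v} C] [Abelian C] {P : Type} [PartialOrder P] (t : Thin C P)

def PD (U : Set P) (n : ℕ) : Prop := ∀ h, HasProjectiveDimensionLT (t.T U h) n

theorem PD_mid {U U' : Set P} (h : Low U' U) (n : ℕ) (h1 : PD t U' n) (h2 : PD t (U \ U') n) :
    PD t U n := by
  intro hU
  obtain ⟨f, g, w, hS⟩ := t.ses hU h
  exact hS.hasProjectiveDimensionLT_X₂ n (h1 _) (h2 _)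

theorem PD_Iic (x : P) (n : ℕ) : PD t (Iic x) (n + 1) := by
  intro _
  have := t.proj x
  exact hasProjectiveDimensionLT_of_ge _ 1 _ (by omega)

theorem PD_empty (n : ℕ) : PD t ∅ n := by
  intro _
  have := t.zero.hasProjectiveDimensionLT_zero
  exact hasProjectiveDimensionLT_of_ge _ 0 _ (by omega)

theorem PD_sing (x : P) (n : ℕ) (h : PD t (Iio x) n) : PD t {x} (n + 1) := by
  rw [← Iic_sdiff_Iio_same]
  intro _
  obtain ⟨f, g, w, hS⟩ := t.ses ordConnected_Iic (VD.low_Iio x)
  exact hS.hasProjectiveDimensionLT_X₃ n (h _) (PD_Iic t x n _)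

end pd

variable {P : Type} [PartialOrder P] [LocallyFiniteOrder P] [DecidableEq P] [Fintype P]

theorem EfE (f : IA P) (x y : P) : E x x * f * E y y = f x y • E x y := by
  ext a b hab
  rw [MP_70614a_al.mul_univ, Finset.sum_eq_single y, MP_70614a_al.mul_univ, Finset.sum_eq_single x,
    IncidenceAlgebra.constSMul_apply, E_apply, E_apply, E_apply, smul_eq_mul]
  · by_cases h1 : a = x
    · by_cases h2 : b = y
      · subst h1 h2
        simp [hab]
      · simp [h2]
    · simp [h1]
  · intro z _ hz
    rw [E_apply, if_neg fun h => hz h.2.1, zero_mul]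
  · simp
  · intro z _ hz
    rw [E_apply, if_neg fun h => hz h.1, mul_zero]
  · simp

theorem sumE : ∑ y : P, E y y = 1 := by
  ext a b hab
  rw [sum_apply', Finset.sum_eq_single a, E_apply, IncidenceAlgebra.one_apply]
  · by_cases h : a = b
    · subst h; simp
    · rw [if_neg h, if_neg fun h' => h h'.2.1.symm]
  · intro z _ hz
    rw [E_apply, if_neg fun h => hz h.1.symm]
  · simp

theorem EE (x y : P) : E x x * E y y = if x = y then E x x else 0 := by
  have := EfE (1 : IA P) x y
  rw [mul_one, IncidenceAlgebra.one_apply] at this
  rw [this]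
  split_ifs with h
  · subst h; rw [one_smul]
  · rw [zero_smul]

theorem all_pd (n : ℕ)
    (h : ∀ (W : Type) [AddCommGroup W] [Module ℚ W] (x : P), PD (thin P W) {x} n) (D : Set P) :
    ∀ (M : Type) [AddCommGroup M] [Module (IA P) M] [Module ℚ M] [IsScalarTower ℚ (IA P) M],
      (∀ y, y ∉ D → ∀ m : M, E y y • m = 0) → HasProjectiveDimensionLT (ModuleCat.of (IA P) M) n := by
  induction hc : D.ncard using Nat.strong_induction_on generalizing D with
  | _ k ih =>
    intro M _ _ _ _ hM
    have one : ∀ m : M, m = ∑ y : P, E y y • m := fun m => by rw [← Finset.sum_smul, sumE, one_smul]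
    rcases D.eq_empty_or_nonempty with rfl | hne
    · have : Subsingleton M := ⟨fun a b => by
        rw [one a, one b]
        simp [hM]⟩
      have := (ModuleCat.isZero_of_subsingleton (ModuleCat.of (IA P) M)).hasProjectiveDimensionLT_zero
      exact hasProjectiveDimensionLT_of_ge _ 0 _ (by omega)
    · obtain ⟨x, hx⟩ := (Set.toFinite D).exists_maximal hne
      have exx : ∀ m : M, E x x • E x x • m = E x x • m := fun m => by
        rw [← mul_smul, EE, if_pos rfl]
      let W : Submodule ℚ M :=
        { carrier := {m | E x x • m = m}
          add_mem' := fun {a b} ha hb => by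
            change E x x • (a + b) = a + b
            rw [smul_add, ha, hb]
          zero_mem' := smul_zero _
          smul_mem' := fun c m hm => by
            change E x x • c • m = c • m
            rw [smul_comm, hm] }
      have key : ∀ (f : IA P) (m : M), E x x • f • m = f x x • E x x • m := by
        intro f m
        conv_lhs => rw [one m, Finset.smul_sum, Finset.smul_sum]
        rw [Finset.sum_eq_single x, ← mul_smul, ← mul_smul, EfE, smul_assoc]
        · intro y _ hy
          by_cases hxy : x ≤ y
          · rw [hM y fun hy' => hy (le_antisymm (hx.2 hy' hxy) hxy), smul_zero, smul_zero]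
          · rw [← mul_smul, ← mul_smul, EfE, IncidenceAlgebra.apply_eq_zero_of_not_le hxy, zero_smul,
              zero_smul]
        · simp
      let π : M →ₗ[IA P] Th W {x} ordConnected_singleton :=
        { toFun := fun m => ⟨fun y => if y = x then ⟨E x x • m, exx m⟩ else 0, fun _ hy => if_neg hy⟩
          map_add' := fun a b => Th.ext fun y hy => by
            rw [add_val]
            simp only [if_pos (mem_singleton_iff.1 hy)]
            exact Subtype.ext (smul_add _ _ _)
          map_smul' := fun f m => Th.ext fun y hy => by
            rw [mem_singleton_iff] at hy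
            subst hy
            rw [RingHom.id_apply, smul_val _ _ (mem_singleton y), Finset.sum_eq_single y]
            · simp only [if_pos]
              exact Subtype.ext (key f m)
            · intro z _ hz
              simp only [if_neg hz, smul_zero]
            · simp }
      have hπ : Function.Surjective π := fun v => ⟨(v.1 x).1, Th.ext fun y hy => by
        rw [mem_singleton_iff] at hy
        subst hy
        exact (if_pos rfl).trans (Subtype.ext (v.1 y).2)⟩
      let S : ShortComplex (ModuleCat.{0} (IA P)) :=
        ShortComplex.mk (ModuleCat.ofHom (LinearMap.ker π).subtype) (ModuleCat.ofHom π) (by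
          ext w
          exact w.2)
      have hS : S.ShortExact := ModuleCat.shortComplex_shortExact S (LinearMap.exact_subtype_ker_map π)
        (Submodule.injective_subtype _) hπ
      refine hS.hasProjectiveDimensionLT_X₂ n (ih _ ?_ (D \ {x}) rfl (LinearMap.ker π) ?_) (h W x _)
      · rw [← hc]
        exact Set.ncard_sdiff_singleton_lt_of_mem hx.1
      · intro y hy m
        apply Subtype.ext
        by_cases hyx : y = x
        · subst hyx
          have h1 : (π m).1 y = 0 := by rw [m.2]; rfl
          have h2 : (π m).1 y = ⟨E y y • m.1, exx m.1⟩ := if_pos rfl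
          have h3 : E y y • m.1 = 0 := congrArg Subtype.val (h2.symm.trans h1)
          exact h3
        · exact hM y (fun h' => hy ⟨h', hyx⟩) m

theorem all_pd' (n : ℕ)
    (h : ∀ (W : Type) [AddCommGroup W] [Module ℚ W] (x : P), PD (thin P W) {x} n)
    (M : ModuleCat.{0} (IA P)) : HasProjectiveDimensionLT M n := by
  let _ : Module ℚ M := Module.compHom M (algebraMap ℚ (IA P))
  have : IsScalarTower ℚ (IA P) M := IsScalarTower.of_compHom _ _ _
  exact all_pd n h univ M fun y hy => (hy (mem_univ y)).elim

end Pool.Agent.H.MP_b87388_al
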