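import Pool.Agent.H.MP_b87388_al.A

namespace Pool.Agent.H.MP_b87388_al

open SemidirectProduct

abbrev N : Type := Multiplicative (Fin 3 → ZMod 2)
abbrev Q : Type := Multiplicative (ZMod 7)

def mx (v : Fin 3 → ZMod 2) : Fin 3 → ZMod 2 := ![v 2, v 0 + v 2, v 1]

instance : SMul Q N := ⟨fun q v => Multiplicative.ofAdd (mx^[q.toAdd.val] v.toAdd)⟩

instance : MulDistribMulAction Q N where
  one_smul _ := rfl
  mul_smul := by decide +kernel
  smul_one := by decide +kernel
  smul_mul := by decide +kernel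

abbrev G8 : Type := N ⋊[MulDistribMulAction.toMulAut Q N] Q

instance : Fintype G8 := Fintype.ofEquiv _ SemidirectProduct.equivProd.symm

def eI (I : Finset (Fin 3)) : Subgroup G8 where
  carrier := {x | x.right = 1 ∧ ∀ i, i ∉ I → x.left.toAdd i = 0}
  one_mem' := ⟨rfl, fun _ _ => rfl⟩
  mul_mem' {a b} ha hb := ⟨by rw [mul_right, ha.1, hb.1, mul_one], fun i hi => by
    rw [mul_left, ha.1, map_one, MulAut.one_apply, toAdd_mul, Pi.add_apply, ha.2 i hi, hb.2 i hi,
      add_zero]⟩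
  inv_mem' {a} ha := ⟨by rw [inv_right, ha.1, inv_one], fun i hi => by
    rw [inv_left, ha.1, inv_one, map_one, MulAut.one_apply, toAdd_inv, Pi.neg_apply, ha.2 i hi,
      neg_zero]⟩

instance (I) : DecidablePred (· ∈ eI I) := fun x =>
  inferInstanceAs (Decidable (x.right = 1 ∧ ∀ i, i ∉ I → x.left.toAdd i = 0))

def C7 : Subgroup G8 where
  carrier := {x | x.left = 1}
  one_mem' := rfl
  mul_mem' {a b} ha hb := by
    change (a * b).left = 1
    rw [mul_left, ha, hb, map_one, mul_one]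
  inv_mem' {a} ha := by
    change a⁻¹.left = 1
    rw [inv_left, ha, inv_one, map_one]

instance : DecidablePred (· ∈ C7) := fun x => inferInstanceAs (Decidable (x.left = 1))

def rI : Fin 4 → Finset (Fin 3) := ![∅, {0}, {0, 1}, Finset.univ]

def ok1 (p : N → Bool) : Prop := ∀ a b, p a = true → p b = true → p (a * b) = true
def ok2 (p : N → Bool) : Prop :=
  ∃ q : Q, ∃ i : Fin 4, ∀ n, p (q • n) = true ↔ ∀ j, j ∉ rI i → n.toAdd j = 0

instance (p) : Decidable (ok1 p) := by unfold ok1; infer_instance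
instance (p) : Decidable (ok2 p) := by unfold ok2; infer_instance

def tb (l : List Bool) (n : N) : Bool :=
  l.getD ((n.toAdd 0).val + 2 * (n.toAdd 1).val + 4 * (n.toAdd 2).val) false

def vv (a b c : ZMod 2) : N := Multiplicative.ofAdd ![a, b, c]

theorem cls' : ∀ b0 b1 b2 b3 b4 b5 b6 b7 : Bool, tb [b0, b1, b2, b3, b4, b5, b6, b7] 1 = true →
    ok1 (tb [b0, b1, b2, b3, b4, b5, b6, b7]) → ok2 (tb [b0, b1, b2, b3, b4, b5, b6, b7]) := by
  decide +kernel

theorem cls (p : N → Bool) : p 1 = true → ok1 p → ok2 p := by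
  have h : ∀ n : N, n = vv 0 0 0 ∨ n = vv 1 0 0 ∨ n = vv 0 1 0 ∨ n = vv 1 1 0 ∨ n = vv 0 0 1 ∨
    n = vv 1 0 1 ∨ n = vv 0 1 1 ∨ n = vv 1 1 1 := by decide +kernel
  have h1 : tb [p (vv 0 0 0), p (vv 1 0 0), p (vv 0 1 0), p (vv 1 1 0), p (vv 0 0 1), p (vv 1 0 1),
      p (vv 0 1 1), p (vv 1 1 1)] = p := by
    funext n
    rcases h n with rfl | rfl | rfl | rfl | rfl | rfl | rfl | rfl <;> rfl
  rw [← h1]
  exact cls' _ _ _ _ _ _ _ _

theorem tr1 : ∀ q : Q, q ≠ 1 → ∀ n : N, n ≠ 1 → ∀ n' : N, n' = 1 ∨ ∃ k : Fin 7, q ^ k.val • n = n' := by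
  decide +kernel

theorem tr2 : ∀ q : Q, q ≠ 1 → ∀ q' : Q, ∃ k : Fin 7, q ^ k.val = q' := by decide +kernel

theorem tr3' : ∀ x : G8, x.right ≠ 1 →
    ∃ n : N, (inl n * inr x.right * (inl n)⁻¹ : G8).left = x.left := by
  decide +kernel

theorem tr3 (x : G8) (h : x.right ≠ 1) : ∃ n : N, inl n * inr x.right * (inl n)⁻¹ = x := by
  obtain ⟨n, hn⟩ := tr3' x h
  exact ⟨n, SemidirectProduct.ext hn (by simp)⟩

def rep : Fin 6 → Subgroup G8 := ![eI ∅, eI {0}, eI {0, 1}, eI Finset.univ, C7, ⊤]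

def cd : Fin 6 → ℕ := ![1, 2, 4, 8, 7, 56]

theorem card_rep (i : Fin 6) : Nat.card (rep i) = cd i := by
  fin_cases i
  · change Nat.card (eI ∅) = 1
    rw [Nat.card_eq_fintype_card]; decide +kernel
  · change Nat.card (eI {0}) = 2
    rw [Nat.card_eq_fintype_card]; decide +kernel
  · change Nat.card (eI {0, 1}) = 4
    rw [Nat.card_eq_fintype_card]; decide +kernel
  · change Nat.card (eI Finset.univ) = 8
    rw [Nat.card_eq_fintype_card]; decide +kernel
  · change Nat.card C7 = 7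
    rw [Nat.card_eq_fintype_card]; decide +kernel
  · change Nat.card (⊤ : Subgroup G8) = 56
    rw [Subgroup.card_top, Nat.card_eq_fintype_card]; decide +kernel

theorem eI_mono {I J : Finset (Fin 3)} (h : I ⊆ J) : eI I ≤ eI J :=
  fun _ hx => ⟨hx.1, fun i hi => hx.2 i fun h' => hi (h h')⟩

theorem eI_bot : eI ∅ = ⊥ := by
  rw [eq_bot_iff]
  intro x hx
  rw [Subgroup.mem_bot]
  ext1
  · ext i
    exact hx.2 i (by simp)
  · exact hx.1

theorem rep_le (i j : Fin 6) (h : cd i ∣ cd j) : rep i ≤ rep j := by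
  have key : ∀ i j : Fin 6, cd i ∣ cd j → i = 0 ∨ j = 5 ∨ i = j ∨ (i = 1 ∧ j = 2) ∨ (i = 1 ∧ j = 3) ∨
    (i = 2 ∧ j = 3) := by decide
  rcases key i j h with rfl | rfl | rfl | ⟨rfl, rfl⟩ | ⟨rfl, rfl⟩ | ⟨rfl, rfl⟩
  · exact eI_bot.le.trans bot_le
  · exact le_top
  · exact le_rfl
  · exact eI_mono (by decide)
  · exact eI_mono (by decide)
  · exact eI_mono (by decide)

theorem eq_inl {x : G8} (h : x.right = 1) : x = inl x.left := by
  ext1
  · rfl
  · exact h

theorem conj_inl (g : G8) (n : N) : g * inl n * g⁻¹ = inl (g.right • n) := by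
  have h : g * inl n = inl (g.right • n) * g := by
    ext1
    · simp [mul_comm]
    · simp
  rw [h, mul_inv_cancel_right]

theorem classify (H : Subgroup G8) : ∃ g i, cj g H = rep i := by
  classical
  by_cases h : ∀ x ∈ H, x.right = 1
  · obtain ⟨q, i, hq⟩ := cls (fun n => decide (inl n ∈ H)) (by simp)
      (fun a b ha hb => by simpa using H.mul_mem (of_decide_eq_true ha) (of_decide_eq_true hb))
    refine ⟨inr q, i.castLE (by norm_num), ?_⟩
    have h1 : rep (i.castLE (by norm_num)) = eI (rI i) := by fin_cases i <;> rfl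
    rw [h1]
    ext x
    rw [mem_cj]
    constructor
    · intro hx
      have h2 : x.right = 1 := by simpa using h _ hx
      rw [eq_inl h2, conj_inl] at hx
      exact ⟨h2, (hq _).1 (decide_eq_true hx)⟩
    · intro hx
      rw [eq_inl hx.1, conj_inl]
      exact of_decide_eq_true ((hq _).2 hx.2)
  · push Not at h
    obtain ⟨x, hx, hx1⟩ := h
    have hp : ∀ k : ℕ, (x ^ k).right = x.right ^ k := fun k => map_pow (rightHom : G8 →* Q) x k
    by_cases h2 : ∀ y ∈ H, y.right = 1 → y = 1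
    · obtain ⟨n, hn⟩ := tr3 x hx1
      refine ⟨inl n, 4, ?_⟩
      have h3 : ∀ q, (inr q : G8) ∈ cj (inl n) H := by
        intro q
        obtain ⟨k, rfl⟩ := tr2 _ hx1 q
        rw [map_pow]
        exact Subgroup.pow_mem _ (by rw [mem_cj, hn]; exact hx) _
      ext y
      constructor
      · intro hy
        have h4 := Subgroup.mul_mem _ hy (Subgroup.inv_mem _ (h3 y.right))
        have h5 := h2 _ (mem_cj.1 h4) (by simp)
        rw [conj_eq_one_iff, mul_inv_eq_one] at h5
        change y.left = 1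
        rw [h5]
        rfl
      · intro hy
        have h4 : y = inr y.right := by
          ext1
          · exact hy
          · rfl
        rw [h4]
        exact h3 _
    · push Not at h2
      obtain ⟨y, hy, hy1, hy2⟩ := h2
      refine ⟨1, 5, ?_⟩
      rw [cj_one]
      have h3 : ∀ n, (inl n : G8) ∈ H := by
        intro n
        rcases tr1 _ hx1 y.left (fun h => hy2 (by rw [eq_inl hy1, h, map_one])) n with rfl | ⟨k, rfl⟩
        · rw [map_one]; exact H.one_mem
        · rw [← hp, ← conj_inl, ← eq_inl hy1]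
          exact H.mul_mem (H.mul_mem (H.pow_mem hx _) hy) (H.inv_mem (H.pow_mem hx _))
      change H = ⊤
      rw [eq_top_iff]
      intro w _
      obtain ⟨k, hk⟩ := tr2 _ hx1 w.right
      have h4 : (w * (x ^ k.val)⁻¹).right = 1 := by rw [mul_right, inv_right, hp, hk, mul_inv_cancel]
      have h5 := H.mul_mem (h3 (w * (x ^ k.val)⁻¹).left) (H.pow_mem hx k.val)
      rwa [← eq_inl h4, inv_mul_cancel_right] at h5

open Classical in
noncomputable def dat : Dat G8 (Finset (Fin 3)) where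
  E := eI Finset.univ
  nor := ⟨fun n hn g => ⟨by simp [hn.1], fun i hi => (hi (Finset.mem_univ i)).elim⟩⟩
  com a ha b hb := by
    rw [eq_inl ha.1, eq_inl hb.1, ← map_mul, ← map_mul, mul_comm]
  e := eI
  he _ := eI_mono (Finset.subset_univ _)
  s H := Finset.univ.filter fun i => ∃ x ∈ H, x.left.toAdd i ≠ 0
  adj H p hH := by
    constructor
    · intro h x hx
      refine ⟨(hH hx).1, fun i hi => ?_⟩
      by_contra h1
      exact hi (h (Finset.mem_filter.2 ⟨Finset.mem_univ _, x, hx, h1⟩))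
    · intro h i hi
      obtain ⟨x, hx, h1⟩ := (Finset.mem_filter.1 hi).2
      by_contra h2
      exact h1 ((h hx).2 i h2)

theorem eI_ne : ∀ I : Finset (Fin 3), I ≠ ∅ → ∃ x : G8, x ∈ eI I ∧ x.left ≠ 1 := by decide +kernel

end Pool.Agent.H.MP_b87388_al
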